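import Pool.Agent.W854.IG.Base

/-!
# IG-QREL: relations between the Kadanoff-Ceva correlators at the critical point
-/

open Finset

noncomputable section

namespace Pool.Agent.W599.IGQ

open Pool.Agent.W854.IG

lemma exp_two_bc : Real.exp (2 * βc) = 1 + √2 := by
  have h : 2 * βc = Real.log (1 + √2) := by unfold βc; ring
  rw [h]
  exact Real.exp_log (by positivity)

lemma exp_neg_two_bc : Real.exp (-(2 * βc)) = √2 - 1 := by
  rw [Real.exp_neg, exp_two_bc]
  have h : √2 * √2 = 2 := Real.mul_self_sqrt (by norm_num)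
  have hpos : (0 : ℝ) < 1 + √2 := by positivity
  rw [inv_eq_one_div, div_eq_iff hpos.ne']
  nlinarith

lemma bc_pos : 0 < βc := by
  unfold βc
  have : (0 : ℝ) < √2 := by positivity
  have := Real.log_pos (show (1 : ℝ) < 1 + √2 by linarith)
  linarith

lemma flip_fac (s t : Bool) :
    Real.exp (-(2 * βc) * (sp s * sp t)) = √2 - sp s * sp t := by
  have h1 := exp_two_bc
  have h2 := exp_neg_two_bc
  cases s <;> cases t <;> simp only [sp_true, sp_false]
  · rw [show -(2 * βc) * (-1 * -1) = -(2 * βc) by ring, h2]; ring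
  · rw [show -(2 * βc) * (-1 * 1) = 2 * βc by ring, h1]; ring
  · rw [show -(2 * βc) * (1 * -1) = 2 * βc by ring, h1]; ring
  · rw [show -(2 * βc) * (1 * 1) = -(2 * βc) by ring, h2]; ring

section General
variable {P ι : Type} [DecidableEq P] [DecidableEq ι]

/-- changing the sign of one coupling -/
lemma Zg_flip (Λ : Finset P) (τ : P → Bool) (E : Finset ι) (a b : ι → P) (J J' : ι → ℝ)
    (e0 : ι) (he0 : e0 ∈ E) (h0 : J e0 = βc) (h0' : J' e0 = -βc)
    (h : ∀ e ∈ E, e ≠ e0 → J' e = J e) (f : (P → Bool) → ℝ) :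
    Zg Λ τ E a b J' f =
      Zg Λ τ E a b J (fun σ => f σ * (√2 - sp (σ (a e0)) * sp (σ (b e0)))) := by
  unfold Zg
  apply Finset.sum_congr rfl
  intro σ _
  have key : Hg E a b J' σ = Hg E a b J σ + -(2 * βc) * (sp (σ (a e0)) * sp (σ (b e0))) := by
    unfold Hg
    rw [← Finset.add_sum_erase E _ he0, ← Finset.add_sum_erase E _ he0, h0, h0']
    have : ∑ e ∈ E.erase e0, J' e * (sp (σ (a e)) * sp (σ (b e))) =
        ∑ e ∈ E.erase e0, J e * (sp (σ (a e)) * sp (σ (b e))) := by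
      apply Finset.sum_congr rfl
      intro e he
      rw [h e (Finset.mem_of_mem_erase he) (Finset.ne_of_mem_erase he)]
    rw [this]
    ring
  rw [key, Real.exp_add, flip_fac]
  ring

/-- flip the spins in `U` -/
def flipU (U : Finset P) (σ : P → Bool) : P → Bool := fun p => if p ∈ U then !σ p else σ p

/-- sign -/
def sgn (U : Finset P) (p : P) : ℝ := if p ∈ U then -1 else 1

lemma sp_flipU (U : Finset P) (σ : P → Bool) (p : P) : sp (flipU U σ p) = sgn U p * sp (σ p) := by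
  unfold flipU sgn
  split_ifs
  · rw [sp_not]; ring
  · ring

lemma flipU_flipU (U : Finset P) (σ : P → Bool) : flipU U (flipU U σ) = σ := by
  funext p
  unfold flipU
  split_ifs <;> simp

lemma flipU_mem (U Λ : Finset P) (hU : U ⊆ Λ) (τ σ : P → Bool) (h : σ ∈ cf Λ τ) :
    flipU U σ ∈ cf Λ τ := by
  rw [mem_cf] at h ⊢
  intro p hp
  unfold flipU
  rw [if_neg (fun hpU => hp (hU hpU)), h p hp]

omit [DecidableEq ι] in
/-- gauge transformation -/
lemma Zg_gauge (Λ : Finset P) (τ : P → Bool) (E : Finset ι) (a b : ι → P) (J : ι → ℝ)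
    (U : Finset P) (hU : U ⊆ Λ) (f : (P → Bool) → ℝ) :
    Zg Λ τ E a b J f =
      Zg Λ τ E a b (fun e => J e * (sgn U (a e) * sgn U (b e))) (fun σ => f (flipU U σ)) := by
  unfold Zg
  refine Finset.sum_nbij' (flipU U) (flipU U) (fun σ h => flipU_mem U Λ hU τ σ h)
    (fun σ h => flipU_mem U Λ hU τ σ h) (fun σ _ => flipU_flipU U σ) (fun σ _ => flipU_flipU U σ)
    ?_
  intro σ _
  show f σ * _ = f (flipU U (flipU U σ)) * _
  rw [flipU_flipU]
  congr 2
  unfold Hg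
  apply Finset.sum_congr rfl
  intro e _
  rw [sp_flipU, sp_flipU]
  have h1 : ∀ p, sgn U p * sgn U p = 1 := by
    intro p; unfold sgn; split_ifs <;> norm_num
  have h2 := h1 (a e)
  have h3 := h1 (b e)
  calc J e * (sp (σ (a e)) * sp (σ (b e)))
      = J e * (sp (σ (a e)) * sp (σ (b e))) * (sgn U (a e) * sgn U (a e)) *
          (sgn U (b e) * sgn U (b e)) := by rw [h2, h3]; ring
    _ = _ := by ring

/-- product of two configurations -/
def mulc (σ σ0 : P → Bool) : P → Bool := fun p => σ p == σ0 p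

omit [DecidableEq P] in
lemma sp_mulc (σ σ0 : P → Bool) (p : P) : sp (mulc σ σ0 p) = sp (σ p) * sp (σ0 p) := by
  unfold mulc
  cases σ p <;> cases σ0 p <;> simp

omit [DecidableEq P] in
lemma mulc_mulc (σ σ0 : P → Bool) : mulc (mulc σ σ0) σ0 = σ := by
  funext p
  unfold mulc
  cases σ p <;> cases σ0 p <;> simp

lemma mulc_mem (Λ : Finset P) (σ σ0 : P → Bool) (h : σ ∈ cf Λ (fun _ => true))
    (h0 : σ0 ∈ cf Λ (fun _ => true)) : mulc σ σ0 ∈ cf Λ (fun _ => true) := by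
  rw [mem_cf] at h h0 ⊢
  intro p hp
  unfold mulc
  rw [h p hp, h0 p hp]
  rfl

omit [DecidableEq ι] in
lemma sum_prod_nonneg (Λ : Finset P) (A : Finset ι) (a b : ι → P) :
    0 ≤ ∑ σ ∈ cf Λ (fun _ => true), ∏ e ∈ A, (sp (σ (a e)) * sp (σ (b e))) := by
  have hval : ∀ σ : P → Bool, (∏ e ∈ A, (sp (σ (a e)) * sp (σ (b e)))) = 1 ∨
      (∏ e ∈ A, (sp (σ (a e)) * sp (σ (b e)))) = -1 := by
    intro σ
    have h1 : (∏ e ∈ A, (sp (σ (a e)) * sp (σ (b e)))) ^ 2 = 1 := by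
      rw [← Finset.prod_pow]
      apply Finset.prod_eq_one
      intro e _
      rw [mul_pow, sp_sq, sp_sq, one_mul]
    exact mul_self_eq_one_iff.mp (by rw [← sq]; exact h1)
  by_cases hex : ∃ σ0 ∈ cf Λ (fun _ => true), (∏ e ∈ A, (sp (σ0 (a e)) * sp (σ0 (b e)))) = -1
  · obtain ⟨σ0, h0, h1⟩ := hex
    have key : ∑ σ ∈ cf Λ (fun _ => true), ∏ e ∈ A, (sp (σ (a e)) * sp (σ (b e))) =
        ∑ σ ∈ cf Λ (fun _ => true), -∏ e ∈ A, (sp (σ (a e)) * sp (σ (b e))) := by
      refine Finset.sum_nbij' (fun σ => mulc σ σ0) (fun σ => mulc σ σ0)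
        (fun σ h => mulc_mem Λ σ σ0 h h0) (fun σ h => mulc_mem Λ σ σ0 h h0)
        (fun σ _ => mulc_mulc σ σ0) (fun σ _ => mulc_mulc σ σ0) ?_
      intro σ _
      simp only [sp_mulc]
      have : ∏ e ∈ A, (sp (σ (a e)) * sp (σ0 (a e)) * (sp (σ (b e)) * sp (σ0 (b e)))) =
          (∏ e ∈ A, (sp (σ (a e)) * sp (σ (b e)))) *
            ∏ e ∈ A, (sp (σ0 (a e)) * sp (σ0 (b e))) := by
        rw [← Finset.prod_mul_distrib]
        apply Finset.prod_congr rfl
        intro e _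
        ring
      rw [this, h1]
      ring
    rw [Finset.sum_neg_distrib] at key
    linarith
  · apply Finset.sum_nonneg
    intro σ hσ
    rcases hval σ with h | h
    · rw [h]; norm_num
    · exact absurd ⟨σ, hσ, h⟩ hex

lemma exp_eq (x : ℝ) (s t : Bool) :
    Real.exp (x * (sp s * sp t)) = Real.cosh x + Real.sinh x * (sp s * sp t) := by
  cases s <;> cases t <;> simp only [sp_true, sp_false]
  · rw [show x * (-1 * -1) = x by ring, ← Real.cosh_add_sinh]; ring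
  · rw [show x * (-1 * 1) = -x by ring, ← Real.cosh_sub_sinh]; ring
  · rw [show x * (1 * -1) = -x by ring, ← Real.cosh_sub_sinh]; ring
  · rw [show x * (1 * 1) = x by ring, ← Real.cosh_add_sinh]; ring

lemma Zg_expand (Λ : Finset P) (E : Finset ι) (a b : ι → P) (J : ι → ℝ) :
    Zg Λ (fun _ => true) E a b J (fun _ => 1) =
      ∑ A ∈ E.powerset, (∏ e ∈ A, Real.sinh (J e)) * (∏ e ∈ E \ A, Real.cosh (J e)) *
        ∑ σ ∈ cf Λ (fun _ => true), ∏ e ∈ A, (sp (σ (a e)) * sp (σ (b e))) := by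
  unfold Zg Hg
  have h1 : ∀ σ : P → Bool, (1 : ℝ) * Real.exp (∑ e ∈ E, J e * (sp (σ (a e)) * sp (σ (b e)))) =
      ∑ A ∈ E.powerset, (∏ e ∈ A, Real.sinh (J e)) * (∏ e ∈ E \ A, Real.cosh (J e)) *
        ∏ e ∈ A, (sp (σ (a e)) * sp (σ (b e))) := by
    intro σ
    rw [one_mul, Real.exp_sum]
    have h2 : ∀ e ∈ E, Real.exp (J e * (sp (σ (a e)) * sp (σ (b e)))) =
        Real.sinh (J e) * (sp (σ (a e)) * sp (σ (b e))) + Real.cosh (J e) := by
      intro e _
      rw [exp_eq]; ring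
    rw [Finset.prod_congr rfl h2, Finset.prod_add]
    apply Finset.sum_congr rfl
    intro A _
    rw [Finset.prod_mul_distrib]
    ring
  rw [Finset.sum_congr rfl (fun σ _ => h1 σ), Finset.sum_comm]
  apply Finset.sum_congr rfl
  intro A _
  rw [Finset.mul_sum]

lemma Zg_le (Λ : Finset P) (E : Finset ι) (a b : ι → P) (J J' : ι → ℝ)
    (h0 : ∀ e ∈ E, 0 ≤ J e) (h : ∀ e ∈ E, J' e = J e ∨ J' e = -J e) :
    Zg Λ (fun _ => true) E a b J' (fun _ => 1) ≤ Zg Λ (fun _ => true) E a b J (fun _ => 1) := by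
  rw [Zg_expand, Zg_expand]
  apply Finset.sum_le_sum
  intro A hA
  rw [Finset.mem_powerset] at hA
  apply mul_le_mul_of_nonneg_right _ (sum_prod_nonneg Λ A a b)
  have hc : ∏ e ∈ E \ A, Real.cosh (J' e) = ∏ e ∈ E \ A, Real.cosh (J e) := by
    apply Finset.prod_congr rfl
    intro e he
    rcases h e (Finset.mem_sdiff.mp he).1 with h1 | h1
    · rw [h1]
    · rw [h1, Real.cosh_neg]
  rw [hc]
  apply mul_le_mul_of_nonneg_right _ (Finset.prod_nonneg (fun e _ => (Real.cosh_pos _).le))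
  calc ∏ e ∈ A, Real.sinh (J' e) ≤ |∏ e ∈ A, Real.sinh (J' e)| := le_abs_self _
    _ = ∏ e ∈ A, |Real.sinh (J' e)| := Finset.abs_prod _ _
    _ = ∏ e ∈ A, Real.sinh (J e) := by
        apply Finset.prod_congr rfl
        intro e he
        have hs : 0 ≤ Real.sinh (J e) := Real.sinh_nonneg_iff.mpr (h0 e (hA he))
        rcases h e (hA he) with h1 | h1
        · rw [h1, abs_of_nonneg hs]
        · rw [h1, Real.sinh_neg, abs_neg, abs_of_nonneg hs]

end General

/-- the couplings: the horizontal edges below the face `(a,b)` are reversed -/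
def sg (a b : ℤ) (e : Pt × Bool) : ℝ :=
  if e.2 = true ∧ e.1.1 = a ∧ 1 ≤ e.1.2 ∧ e.1.2 ≤ b then -βc else βc

/-- unnormalised correlator -/
def Zq (W K : ℕ) (a b : ℤ) (f : (Pt → Bool) → ℝ) : ℝ :=
  Zg (rect W K) (fun _ => true) (rectEdges W K) Prod.fst nb (sg a b) f

/-- the correlator -/
def Qf (W K : ℕ) (a b x y : ℕ) : ℝ :=
  Zq W K a b (fun σ => sp (σ ((x : ℤ), (y : ℤ)))) /
    Zg (rect W K) (fun _ => true) (rectEdges W K) Prod.fst nb (fun _ => βc) (fun _ => 1)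

lemma Zq_add (W K : ℕ) (a b : ℤ) (f g : (Pt → Bool) → ℝ) (c d : ℝ) :
    Zq W K a b (fun σ => c * f σ + d * g σ) = c * Zq W K a b f + d * Zq W K a b g := by
  unfold Zq
  rw [Zg_add, Zg_const_mul, Zg_const_mul]

lemma Zq_neg (W K : ℕ) (a b : ℤ) (g : (Pt → Bool) → ℝ) :
    -Zq W K a b g = Zq W K a b (fun σ => -g σ) := by
  have h := Zg_const_mul (rect W K) (fun _ => true) (rectEdges W K) Prod.fst nb (sg a b) (-1) g
  unfold Zq
  rw [neg_one_mul] at h
  rw [← h]
  congr 1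
  funext σ
  ring

lemma Zq_congr (W K : ℕ) (a b : ℤ) (f g : (Pt → Bool) → ℝ)
    (h : ∀ σ ∈ cf (rect W K) (fun _ => true), f σ = g σ) : Zq W K a b f = Zq W K a b g :=
  Zg_congr_fun _ _ _ _ h

lemma Zq_ghost (W K : ℕ) (a b : ℤ) (p : Pt) (hp : p ∉ rect W K) :
    Zq W K a b (fun σ => sp (σ p)) = Zq W K a b (fun _ => 1) := by
  apply Zq_congr
  intro σ hσ
  rw [mem_cf] at hσ
  rw [hσ p hp, sp_true]

/-- horizontal step -/
lemma Zq_h (W K : ℕ) (a b : ℕ) (ha : a ≤ W) (hb : b < K) (f : (Pt → Bool) → ℝ) :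
    Zq W K a ((b : ℤ) + 1) f = Zq W K a b (fun σ => f σ *
      (√2 - sp (σ ((a : ℤ), (b : ℤ) + 1)) * sp (σ ((a : ℤ) + 1, (b : ℤ) + 1)))) := by
  unfold Zq
  have he0 : (((a : ℤ), (b : ℤ) + 1), true) ∈ rectEdges W K := by
    rw [mem_rectEdges]
    simp only
    refine ⟨⟨by omega, by omega, by exact_mod_cast ha⟩, Or.inl ⟨trivial, by positivity⟩⟩
  have := Zg_flip (rect W K) (fun _ => true) (rectEdges W K) Prod.fst nb (sg a b)
    (sg a ((b : ℤ) + 1)) (((a : ℤ), (b : ℤ) + 1), true) he0 (by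
      unfold sg
      rw [if_neg]
      simp) (by
      unfold sg
      rw [if_pos]
      simp only [true_and, le_refl, and_true]
      omega) (by
      rintro ⟨⟨x, y⟩, d⟩ _ hne
      unfold sg
      simp only
      by_cases h1 : d = true ∧ x = (a : ℤ) ∧ 1 ≤ y ∧ y ≤ (b : ℤ)
      · rw [if_pos h1, if_pos ⟨h1.1, h1.2.1, h1.2.2.1, by omega⟩]
      · rw [if_neg h1, if_neg]
        rintro ⟨h2, h3, h4, h5⟩
        rcases eq_or_lt_of_le h5 with h6 | h6
        · exact hne (by rw [h2, h3, h6])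
        · exact h1 ⟨h2, h3, h4, by omega⟩) f
  rw [this]
  simp only [nb_true]

/-- vertical step -/
lemma Zq_v (W K : ℕ) (a b : ℕ) (ha : a < W) (hb1 : 1 ≤ b) (hb : b ≤ K) (f : (Pt → Bool) → ℝ) :
    Zq W K ((a : ℤ) + 1) b f =
      Zq W K a b (fun σ => f (flipU (({(a : ℤ) + 1} : Finset ℤ) ×ˢ Finset.Icc 1 (b : ℤ)) σ) *
      (√2 - sp (σ ((a : ℤ) + 1, (b : ℤ))) * sp (σ ((a : ℤ) + 1, (b : ℤ) + 1)))) := by
  set U : Finset Pt := ({(a : ℤ) + 1} : Finset ℤ) ×ˢ Finset.Icc 1 (b : ℤ) with hU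
  have hmem : ∀ p : Pt, p ∈ U ↔ p.1 = (a : ℤ) + 1 ∧ 1 ≤ p.2 ∧ p.2 ≤ (b : ℤ) := by
    intro p
    rw [hU, Finset.mem_product, Finset.mem_singleton, Finset.mem_Icc]
  have hsub : U ⊆ rect W K := by
    intro p hp
    rw [hmem] at hp
    rw [mem_rect]
    omega
  unfold Zq
  rw [Zg_gauge (rect W K) (fun _ => true) (rectEdges W K) Prod.fst nb (sg ((a : ℤ) + 1) b) U hsub f]
  have he0 : (((a : ℤ) + 1, (b : ℤ)), false) ∈ rectEdges W K := by
    rw [mem_rectEdges]
    simp only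
    refine ⟨⟨by omega, by omega, by omega⟩, Or.inr ⟨trivial, by omega⟩⟩
  have hJ : ∀ e ∈ rectEdges W K, sg ((a : ℤ) + 1) b e * (sgn U e.1 * sgn U (nb e)) =
      if e = (((a : ℤ) + 1, (b : ℤ)), false) then -βc else sg a b e := by
    rintro ⟨⟨x, y⟩, d⟩ he
    rw [mem_rectEdges] at he
    simp only at he
    cases d
    · have h1 : sgn U (x, y) = if x = (a : ℤ) + 1 ∧ y ≤ (b : ℤ) then -1 else 1 := by
        unfold sgn
        simp only [hmem]
        by_cases h : x = (a : ℤ) + 1 ∧ y ≤ (b : ℤ)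
        · rw [if_pos h, if_pos ⟨h.1, he.1.1, h.2⟩]
        · rw [if_neg h, if_neg (fun h' => h ⟨h'.1, h'.2.2⟩)]
      have h2 : sgn U (nb ((x, y), false)) =
          if x = (a : ℤ) + 1 ∧ y + 1 ≤ (b : ℤ) then -1 else 1 := by
        unfold sgn
        simp only [hmem, nb_false]
        by_cases h : x = (a : ℤ) + 1 ∧ y + 1 ≤ (b : ℤ)
        · rw [if_pos h, if_pos ⟨h.1, by omega, h.2⟩]
        · rw [if_neg h, if_neg (fun h' => h ⟨h'.1, h'.2.2⟩)]
      have h3 : sg ((a : ℤ) + 1) b ((x, y), false) = βc := by unfold sg; rw [if_neg]; simp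
      have h4 : sg a b ((x, y), false) = βc := by unfold sg; rw [if_neg]; simp
      rw [h1, h2, h3, h4]
      by_cases hx : x = (a : ℤ) + 1
      · by_cases hy : y = (b : ℤ)
        · rw [if_pos ⟨hx, by omega⟩, if_neg (by omega), if_pos (by rw [hx, hy])]
          ring
        · rw [if_neg (show ¬ ((x, y), false) = (((a : ℤ) + 1, (b : ℤ)), false) by
            intro h; exact hy (by simpa using (Prod.ext_iff.mp (Prod.ext_iff.mp h).1).2))]
          by_cases hyb : y ≤ (b : ℤ)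
          · rw [if_pos ⟨hx, hyb⟩, if_pos ⟨hx, by omega⟩]
            ring
          · rw [if_neg (fun h => hyb h.2), if_neg (fun h => hyb (by omega))]
            ring
      · rw [if_neg (fun h => hx h.1), if_neg (fun h => hx h.1),
          if_neg (show ¬ ((x, y), false) = (((a : ℤ) + 1, (b : ℤ)), false) by
            intro h; exact hx (by simpa using (Prod.ext_iff.mp (Prod.ext_iff.mp h).1).1))]
        ring
    · have hne : ¬ ((x, y), true) = (((a : ℤ) + 1, (b : ℤ)), false) := by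
        intro h
        have := (Prod.ext_iff.mp h).2
        simp at this
      rw [if_neg hne]
      have h1 : sgn U (x, y) = if x = (a : ℤ) + 1 ∧ y ≤ (b : ℤ) then -1 else 1 := by
        unfold sgn
        simp only [hmem]
        by_cases h : x = (a : ℤ) + 1 ∧ y ≤ (b : ℤ)
        · rw [if_pos h, if_pos ⟨h.1, he.1.1, h.2⟩]
        · rw [if_neg h, if_neg (fun h' => h ⟨h'.1, h'.2.2⟩)]
      have h2 : sgn U (nb ((x, y), true)) = if x = (a : ℤ) ∧ y ≤ (b : ℤ) then -1 else 1 := by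
        unfold sgn
        simp only [hmem, nb_true]
        by_cases h : x = (a : ℤ) ∧ y ≤ (b : ℤ)
        · rw [if_pos h, if_pos ⟨by omega, he.1.1, h.2⟩]
        · rw [if_neg h, if_neg (fun h' => h ⟨by omega, h'.2.2⟩)]
      have h3 : sg ((a : ℤ) + 1) b ((x, y), true) =
          if x = (a : ℤ) + 1 ∧ y ≤ (b : ℤ) then -βc else βc := by
        unfold sg
        simp only [true_and]
        by_cases h : x = (a : ℤ) + 1 ∧ y ≤ (b : ℤ)
        · rw [if_pos h, if_pos ⟨h.1, he.1.1, h.2⟩]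
        · rw [if_neg h, if_neg (fun h' => h ⟨h'.1, h'.2.2⟩)]
      have h4 : sg a b ((x, y), true) = if x = (a : ℤ) ∧ y ≤ (b : ℤ) then -βc else βc := by
        unfold sg
        simp only [true_and]
        by_cases h : x = (a : ℤ) ∧ y ≤ (b : ℤ)
        · rw [if_pos h, if_pos ⟨h.1, he.1.1, h.2⟩]
        · rw [if_neg h, if_neg (fun h' => h ⟨h'.1, h'.2.2⟩)]
      rw [h1, h2, h3, h4]
      by_cases hA : x = (a : ℤ) + 1 ∧ y ≤ (b : ℤ)
      · rw [if_pos hA, if_pos hA, if_neg (by omega), if_neg (by omega)]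
        ring
      · rw [if_neg hA, if_neg hA]
        by_cases hB : x = (a : ℤ) ∧ y ≤ (b : ℤ)
        · rw [if_pos hB, if_pos hB]
          ring
        · rw [if_neg hB, if_neg hB]
          ring
  have := Zg_flip (rect W K) (fun _ => true) (rectEdges W K) Prod.fst nb (sg a b)
    (fun e => sg ((a : ℤ) + 1) b e * (sgn U e.1 * sgn U (nb e)))
    (((a : ℤ) + 1, (b : ℤ)), false) he0 (by unfold sg; rw [if_neg]; simp) (by
      rw [hJ _ he0, if_pos rfl]) (by
      intro e he hne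
      rw [hJ e he, if_neg hne]) (fun σ => f (flipU U σ))
  rw [this]
  simp only [nb_false]

lemma Zden_pos (W K : ℕ) : 0 < Zg (rect W K) (fun _ => true) (rectEdges W K) Prod.fst nb
    (fun _ => βc) (fun _ => 1) := Zg_one_pos _ _ _ _ _ _

theorem main : S_QREL := by
  intro W K hK
  refine ⟨Qf W K, ?_⟩
  have hden := Zden_pos W K
  have hghost : ∀ (a b : ℤ) (p q : Pt), p ∉ rect W K → q ∉ rect W K →
      Zq W K a b (fun σ => sp (σ p)) = Zq W K a b (fun σ => sp (σ q)) := by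
    intro a b p q hp hq
    rw [Zq_ghost W K a b p hp, Zq_ghost W K a b q hq]
  have hm : ∀ x : ℤ, ((x, 1) : Pt) ∉ rect W K → mag βc W K x = 1 := by
    intro x hx
    unfold mag avL av
    rw [div_eq_one_iff_eq hden.ne']
    apply Zg_congr_fun
    intro σ hσ
    rw [mem_cf] at hσ
    rw [hσ _ hx, sp_true]
  constructor
  · intro a x _ _
    unfold Qf Zq mag avL av
    have : sg (a : ℤ) ((0 : ℕ) : ℤ) = fun _ => βc := by
      funext e
      unfold sg
      rw [if_neg]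
      rintro ⟨_, _, h3, h4⟩
      push_cast at h4
      omega
    rw [this]
    push_cast
    rfl
  · have h := hm 0 (by rw [mem_rect]; omega)
    simpa using h
  · have h := hm ((W : ℤ) + 1) (by rw [mem_rect]; omega)
    simpa using h
  · intro a b ha hb
    unfold Qf
    push_cast
    rw [Zq_h W K a b ha hb, ← mul_div_assoc, ← sub_div]
    congr 1
    have h := Zq_add W K a b (fun σ => sp (σ ((a : ℤ), (b : ℤ) + 1)))
      (fun σ => sp (σ ((a : ℤ) + 1, (b : ℤ) + 1))) √2 (-1)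
    rw [sub_eq_add_neg, ← neg_one_mul (Zq W K a b fun σ => sp (σ ((a : ℤ) + 1, (b : ℤ) + 1))), ← h]
    apply Zq_congr
    intro σ _
    have := sp_mul_self (σ ((a : ℤ), (b : ℤ) + 1))
    linear_combination (-sp (σ ((a : ℤ) + 1, (b : ℤ) + 1))) * this
  · intro a b ha hb
    unfold Qf
    push_cast
    rw [Zq_h W K a b ha hb, ← mul_div_assoc, ← sub_div]
    congr 1
    have h := Zq_add W K a b (fun σ => sp (σ ((a : ℤ) + 1, (b : ℤ) + 1)))
      (fun σ => sp (σ ((a : ℤ), (b : ℤ) + 1))) √2 (-1)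
    rw [sub_eq_add_neg, ← neg_one_mul (Zq W K a b fun σ => sp (σ ((a : ℤ), (b : ℤ) + 1))), ← h]
    apply Zq_congr
    intro σ _
    have := sp_mul_self (σ ((a : ℤ) + 1, (b : ℤ) + 1))
    linear_combination (-sp (σ ((a : ℤ), (b : ℤ) + 1))) * this
  · intro a b ha hb1 hb
    unfold Qf
    push_cast
    rw [Zq_v W K a b ha hb1 hb, ← mul_div_assoc, ← sub_div, ← neg_div]
    congr 1
    have h := Zq_add W K a b (fun σ => sp (σ ((a : ℤ) + 1, (b : ℤ))))
      (fun σ => sp (σ ((a : ℤ) + 1, (b : ℤ) + 1))) √2 (-1)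
    rw [sub_eq_add_neg, ← neg_one_mul (Zq W K a b fun σ => sp (σ ((a : ℤ) + 1, (b : ℤ) + 1))), ← h]
    rw [Zq_neg]
    apply Zq_congr
    intro σ _
    have h3 : sp (flipU (({(a : ℤ) + 1} : Finset ℤ) ×ˢ Finset.Icc 1 (b : ℤ)) σ
        ((a : ℤ) + 1, (b : ℤ))) = -sp (σ ((a : ℤ) + 1, (b : ℤ))) := by
      rw [sp_flipU]
      unfold sgn
      rw [if_pos]
      · ring
      · rw [Finset.mem_product, Finset.mem_singleton, Finset.mem_Icc]
        exact ⟨rfl, by show (1 : ℤ) ≤ (b : ℤ); exact_mod_cast hb1, le_rfl⟩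
    simp only [h3]
    have := sp_mul_self (σ ((a : ℤ) + 1, (b : ℤ)))
    linear_combination (-sp (σ ((a : ℤ) + 1, (b : ℤ) + 1))) * this
  · intro a b ha hb1 hb
    unfold Qf
    push_cast
    rw [Zq_v W K a b ha hb1 hb, ← mul_div_assoc, ← sub_div]
    congr 1
    have h := Zq_add W K a b (fun σ => sp (σ ((a : ℤ) + 1, (b : ℤ) + 1)))
      (fun σ => sp (σ ((a : ℤ) + 1, (b : ℤ)))) √2 (-1)
    rw [sub_eq_add_neg, ← neg_one_mul (Zq W K a b fun σ => sp (σ ((a : ℤ) + 1, (b : ℤ)))), ← h]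
    apply Zq_congr
    intro σ _
    have h3 : sp (flipU (({(a : ℤ) + 1} : Finset ℤ) ×ˢ Finset.Icc 1 (b : ℤ)) σ
        ((a : ℤ) + 1, (b : ℤ) + 1)) = sp (σ ((a : ℤ) + 1, (b : ℤ) + 1)) := by
      rw [sp_flipU]
      unfold sgn
      rw [if_neg]
      · ring
      · rw [Finset.mem_product, Finset.mem_singleton, Finset.mem_Icc]
        rintro ⟨_, _, h⟩
        simp at h
    simp only [h3]
    have := sp_mul_self (σ ((a : ℤ) + 1, (b : ℤ) + 1))
    linear_combination (-sp (σ ((a : ℤ) + 1, (b : ℤ)))) * this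
  · intro a b y _ _ hy1 _
    unfold Qf
    rw [hghost a b ((((0 : ℕ) : ℤ)), (y : ℤ)) ((((0 : ℕ) : ℤ)), ((K + 1 : ℕ) : ℤ))
      (by rw [mem_rect]; rintro ⟨⟨h1, h2⟩, h3, h4⟩; dsimp only at h1 h2 h3 h4; push_cast at h1 h2 h3 h4; first | done | omega) (by rw [mem_rect]; rintro ⟨⟨h1, h2⟩, h3, h4⟩; dsimp only at h1 h2 h3 h4; push_cast at h1 h2 h3 h4; first | done | omega)]
  · intro a b y _ _ hy1 _
    unfold Qf
    rw [hghost a b ((((W + 1 : ℕ) : ℤ)), (y : ℤ)) ((((0 : ℕ) : ℤ)), ((K + 1 : ℕ) : ℤ))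
      (by rw [mem_rect]; rintro ⟨⟨h1, h2⟩, h3, h4⟩; dsimp only at h1 h2 h3 h4; push_cast at h1 h2 h3 h4; first | done | omega) (by rw [mem_rect]; rintro ⟨⟨h1, h2⟩, h3, h4⟩; dsimp only at h1 h2 h3 h4; push_cast at h1 h2 h3 h4; first | done | omega)]
  · intro a b x _ _ _
    unfold Qf
    rw [hghost a b ((x : ℤ), ((K + 1 : ℕ) : ℤ)) ((((0 : ℕ) : ℤ)), ((K + 1 : ℕ) : ℤ))
      (by rw [mem_rect]; rintro ⟨⟨h1, h2⟩, h3, h4⟩; dsimp only at h1 h2 h3 h4; push_cast at h1 h2 h3 h4; first | done | omega) (by rw [mem_rect]; rintro ⟨⟨h1, h2⟩, h3, h4⟩; dsimp only at h1 h2 h3 h4; push_cast at h1 h2 h3 h4; first | done | omega)]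
  · intro a b _ _
    unfold Qf
    rw [Zq_ghost W K a b _ (by rw [mem_rect]; rintro ⟨⟨h1, h2⟩, h3, h4⟩; dsimp only at h1 h2 h3 h4; push_cast at h1 h2 h3 h4; first | done | omega)]
    exact div_nonneg (Zg_one_pos _ _ _ _ _ _).le hden.le
  · intro a b _ _
    unfold Qf
    rw [Zq_ghost W K a b _ (by rw [mem_rect]; rintro ⟨⟨h1, h2⟩, h3, h4⟩; dsimp only at h1 h2 h3 h4; push_cast at h1 h2 h3 h4; first | done | omega), div_le_one hden]
    apply Zg_le
    · intro e _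
      exact bc_pos.le
    · intro e _
      unfold sg
      split_ifs
      · exact Or.inr rfl
      · exact Or.inl rfl

end Pool.Agent.W599.IGQ
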